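import Pool.Agent.K3h46.HP.Stm6
import Pool.Agent.K3h68.NC.Rows

/-! Symmetric powers of a sum (brick ADDS). -/

set_option autoImplicit false

open Finset

namespace Pool.Agent.K3h11.NC

open Pool.Agent.K3h46.NC

variable (M : TensorPowers)

theorem rows_one (n : ℕ) : M.rows (fun _ : Fin n => (1 : M.H 1)) = 1 := by
  unfold TensorPowers.rows
  simp only [map_one, List.ofFn_const, List.prod_replicate, one_pow]

open Classical in
theorem prod_single {n : ℕ} (a : M.H 1) : ∀ (m : ℕ) (s : Fin m → Fin n), Function.Injective s →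
    (List.ofFn fun j : Fin m => M.emb (single (s j)) a).prod =
      M.rows (fun i => if i ∈ Set.range s then a else 1) := by
  intro m
  induction m with
  | zero =>
    intro s _
    rw [List.ofFn_zero, List.prod_nil]
    have e : (fun i : Fin n => if i ∈ Set.range s then a else 1) = fun _ => 1 := by
      funext i
      rw [if_neg]
      rintro ⟨j, _⟩
      exact j.elim0
    rw [e, rows_one]
  | succ m ih =>
    intro s hs
    rw [List.ofFn_succ, List.prod_cons,
      ih (fun j => s j.succ) (fun i j h => Fin.succ_injective _ (hs h)),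
      (Pool.Agent.K3h68.NC.t_Rows M).2.1]
    congr 1
    have h0 : s 0 ∉ Set.range fun j : Fin m => s j.succ := by
      rintro ⟨j, hj⟩
      exact Fin.succ_ne_zero j (hs hj)
    funext i
    by_cases hi : i = s 0
    · subst hi
      rw [Function.update_self, if_neg h0, mul_one, if_pos ⟨0, rfl⟩]
    · rw [Function.update_of_ne hi]
      by_cases h1 : i ∈ Set.range fun j : Fin m => s j.succ
      · obtain ⟨j, hj⟩ := h1
        rw [if_pos ⟨j, hj⟩, if_pos ⟨j.succ, hj⟩]
      · rw [if_neg h1, if_neg]
        rintro ⟨j, hj⟩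
        rcases Fin.eq_zero_or_eq_succ j with h | ⟨k, h⟩
        · subst h
          exact hi hj.symm
        · subst h
          exact h1 ⟨k, hj⟩

open Classical in
theorem emb_rows {m n : ℕ} (s : Fin m ↪ Fin n) (a : M.H 1) :
    M.emb s (M.rows (fun _ : Fin m => a)) =
      M.rows (fun i => if i ∈ Set.range s then a else 1) := by
  rw [← prod_single M a m s s.injective]
  unfold TensorPowers.rows
  rw [map_list_prod, List.map_ofFn]
  congr 2
  funext j
  exact M.emb_trans (single j) s a

theorem sum_perm_mul {n : ℕ} (τ : Equiv.Perm (Fin n)) :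
    (∑ σ : Equiv.Perm (Fin n), M.perm n σ) * M.perm n τ =
      ∑ σ : Equiv.Perm (Fin n), M.perm n σ := by
  rw [Finset.sum_mul]
  simp_rw [← map_mul]
  exact Fintype.sum_equiv (Equiv.mulRight τ) _ _ (fun σ => rfl)

theorem sum_perm_emb {m n : ℕ} (s : Fin m ↪ Fin n) :
    (∑ σ : Equiv.Perm (Fin n), M.perm n σ) * M.emb s (∑ τ : Equiv.Perm (Fin m), M.perm m τ) =
      (m.factorial : ℚ) • ∑ σ : Equiv.Perm (Fin n), M.perm n σ := by
  rw [map_sum, Finset.mul_sum]
  have e : ∀ τ : Equiv.Perm (Fin m), (∑ σ : Equiv.Perm (Fin n), M.perm n σ) *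
      M.emb s (M.perm m τ) = ∑ σ : Equiv.Perm (Fin n), M.perm n σ := by
    intro τ
    rw [M.emb_perm, sum_perm_mul]
  rw [Finset.sum_congr rfl fun τ _ => e τ, Finset.sum_const, Finset.card_univ,
    Fintype.card_perm, Fintype.card_fin, Nat.cast_smul_eq_nsmul]

/-- the symmetrisation of a tensor product with `p` factors equal to `a` vanishes -/
theorem key {p n : ℕ} (a : M.H 1) (s : Fin p ↪ Fin n) (h : M.sym a p = 0) (c : Fin n → M.H 1)
    (hc : ∀ j, c (s j) = a) :
    (∑ σ : Equiv.Perm (Fin n), M.perm n σ) * M.rows c = 0 := by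
  classical
  have e1 : M.rows c = M.emb s (M.rows (fun _ : Fin p => a)) *
      M.rows (fun i => if i ∈ Set.range s then 1 else c i) := by
    rw [emb_rows, (Pool.Agent.K3h68.NC.t_Rows M).1]
    congr 1
    funext i
    by_cases hi : i ∈ Set.range s
    · rw [if_pos hi, if_pos hi, mul_one]
      obtain ⟨j, rfl⟩ := hi
      exact hc j
    · rw [if_neg hi, if_neg hi, one_mul]
  have e2 : (p.factorial : ℚ) • ((∑ σ : Equiv.Perm (Fin n), M.perm n σ) * M.rows c) = 0 := by
    rw [← smul_mul_assoc, ← sum_perm_emb M s, e1, mul_assoc, ← mul_assoc (M.emb s _), ← map_mul]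
    change _ * (M.emb s (M.sym a p) * _) = 0
    rw [h, map_zero, zero_mul, mul_zero]
  exact (smul_eq_zero.1 e2).resolve_left (by exact_mod_cast p.factorial_ne_zero)

theorem rows_add {n : ℕ} (a b : M.H 1) :
    M.rows (fun _ : Fin n => a + b) =
      ∑ S : Finset (Fin n), M.rows (S.piecewise (fun _ => a) (fun _ => b)) := by
  have h := MultilinearMap.map_add_univ
    ((MultilinearMap.mkPiAlgebraFin ℚ n (M.H n)).compLinearMap
      (fun i : Fin n => (M.emb (single i)).toLinearMap)) (fun _ => a) (fun _ => b)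
  simp only [MultilinearMap.compLinearMap_apply, MultilinearMap.mkPiAlgebraFin_apply] at h
  exact h

theorem t_AddS : StmAddS := by
  intro M a b p q ha hb
  unfold TensorPowers.sym
  rw [rows_add, Finset.mul_sum]
  refine Finset.sum_eq_zero fun S _ => ?_
  by_cases hS : p ≤ S.card
  · refine key M a ((Fin.castLEEmb hS).trans (S.orderEmbOfFin rfl).toEmbedding) ha _ fun j => ?_
    exact Finset.piecewise_eq_of_mem _ _ _ (S.orderEmbOfFin_mem rfl _)
  · have hS' : q ≤ Sᶜ.card := by
      rw [Finset.card_compl, Fintype.card_fin]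
      omega
    refine key M b ((Fin.castLEEmb hS').trans (Sᶜ.orderEmbOfFin rfl).toEmbedding) hb _
      fun j => ?_
    exact Finset.piecewise_eq_of_notMem _ _ _
      (Finset.mem_compl.1 (Sᶜ.orderEmbOfFin_mem rfl _))

end Pool.Agent.K3h11.NC
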